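import Pool.Agent.Helper24.Kite

/-
Every kite K_a inscribed in the unit circle, -1 < a < 1, is a Ramsey set.
-/

namespace Pool.Agent.Results.MP_5f8029_co.KiteRamsey

/-- The identification of `ℝ^m` with the first `m` coordinates of `ℝ^n`: a point is continued
by zeros. -/
noncomputable def pad (m n : ℕ) (x : EuclideanSpace ℝ (Fin m)) : EuclideanSpace ℝ (Fin n) :=
  WithLp.toLp 2 (fun i : Fin n => if h : (i : ℕ) < m then x ⟨i, h⟩ else 0)

/-- A set `X` of points of `ℝ^m` is Ramsey if for every positive integer `k` there is `n ≥ m`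
such that every colouring of `ℝ^n` with `k` colours has an isometry `φ` of `ℝ^n` onto itself for
which `φ(X)` is monochromatic. -/
def IsRamsey (m : ℕ) (X : Set (EuclideanSpace ℝ (Fin m))) : Prop :=
  ∀ k : ℕ, 0 < k → ∃ n : ℕ, m ≤ n ∧ ∀ χ : EuclideanSpace ℝ (Fin n) → Fin k,
    ∃ φ : EuclideanSpace ℝ (Fin n) ≃ᵢ EuclideanSpace ℝ (Fin n), ∃ c : Fin k,
      ∀ x ∈ X, χ (φ (pad m n x)) = c

/-- The kite `K_a`, with vertices `(1,0)`, `(-1,0)`, `(a, √(1-a²))`, `(a, -√(1-a²))`. -/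
noncomputable def kite (a : ℝ) : Set (EuclideanSpace ℝ (Fin 2)) :=
  {!₂[1, 0], !₂[-1, 0], !₂[a, Real.sqrt (1 - a ^ 2)], !₂[a, -Real.sqrt (1 - a ^ 2)]}

lemma exists_isometry {n : ℕ} (hn : 2 ≤ n) (c e f : EuclideanSpace ℝ (Fin n))
    (he : ‖e‖ = 1) (hf : ‖f‖ = 1) (hef : inner ℝ e f = 0) :
    ∃ φ : EuclideanSpace ℝ (Fin n) ≃ᵢ EuclideanSpace ℝ (Fin n),
      ∀ x : EuclideanSpace ℝ (Fin 2), φ (pad 2 n x) = c + x 0 • e + x 1 • f := by
  classical
  set i0 : Fin n := ⟨0, by omega⟩ with hi0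
  set i1 : Fin n := ⟨1, by omega⟩ with hi1
  have h01 : i0 ≠ i1 := by simp [hi0, hi1]
  set v : Fin n → EuclideanSpace ℝ (Fin n) := fun i => if i = i0 then e else f with hv
  have hv0 : v i0 = e := by simp [hv]
  have hv1 : v i1 = f := by simp [hv, h01.symm]
  have horth : Orthonormal ℝ (Set.domRestrict ({i0, i1} : Set (Fin n)) v) := by
    constructor
    · rintro ⟨i, hi⟩
      rcases hi with rfl | rfl
      · simpa [Set.domRestrict, hv0] using he
      · simpa [Set.domRestrict, hv1] using hf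
    · rintro ⟨i, hi⟩ ⟨j, hj⟩ hij
      rcases hi with rfl | rfl
      · rcases hj with rfl | rfl
        · exact absurd rfl hij
        · simpa [Set.domRestrict, hv0, hv1] using hef
      · rcases hj with rfl | rfl
        · simpa [Set.domRestrict, hv0, hv1, real_inner_comm] using hef
        · exact absurd rfl hij
  obtain ⟨b, hb⟩ := horth.exists_orthonormalBasis_extension_of_card_eq (by simp)
  have hb0 : b i0 = e := by rw [hb i0 (by simp), hv0]
  have hb1 : b i1 = f := by rw [hb i1 (by simp), hv1]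
  refine ⟨b.repr.symm.toIsometryEquiv.trans (IsometryEquiv.addLeft c), fun x => ?_⟩
  have hpad : pad 2 n x = x 0 • EuclideanSpace.single i0 (1 : ℝ) +
      x 1 • EuclideanSpace.single i1 (1 : ℝ) := by
    ext i
    by_cases h0 : i = i0
    · subst h0
      simp [pad, hi0, hi1]
    · by_cases h1 : i = i1
      · subst h1
        simp [pad, hi0, hi1]
      · have h2 : ¬ (i : ℕ) < 2 := by
          intro hlt
          have : (i : ℕ) = 0 ∨ (i : ℕ) = 1 := by omega
          rcases this with h | h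
          · exact h0 (Fin.ext h)
          · exact h1 (Fin.ext h)
        simp only [pad, dif_neg h2]
        simp [h0, h1]
  have hsingle : ∀ i : Fin n, b.repr.symm (EuclideanSpace.single i (1 : ℝ)) = b i :=
    fun i => b.repr_symm_single i
  have : b.repr.symm (pad 2 n x) = x 0 • e + x 1 • f := by
    rw [hpad, map_add, map_smul, map_smul, hsingle, hsingle, hb0, hb1]
  change c + b.repr.symm (pad 2 n x) = _
  rw [this, add_assoc]

/-- Every kite `K_a` with `-1 < a < 1` is Ramsey. -/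
theorem result : ∀ a : ℝ, -1 < a → a < 1 → IsRamsey 2 (kite a) := by
  intro a h1 h2 k hk
  obtain ⟨n, hn, hχ⟩ := Pool.Agent.Helper24.Kite.kite_core a h1 h2 k hk
  refine ⟨n, hn, fun χ => ?_⟩
  obtain ⟨c0, c, e, f, he, hf, hef, hP, hQ, hR, hS⟩ := hχ χ
  obtain ⟨φ, hφ⟩ := exists_isometry hn c e f he hf hef
  refine ⟨φ, c0, ?_⟩
  intro x hx
  rw [hφ]
  rcases hx with rfl | rfl | rfl | rfl
  · have e1 : c + (!₂[1, 0] : EuclideanSpace ℝ (Fin 2)) 0 • e +
        (!₂[1, 0] : EuclideanSpace ℝ (Fin 2)) 1 • f = c + e := by simp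
    rw [e1]
    exact hP
  · have e1 : c + (!₂[-1, 0] : EuclideanSpace ℝ (Fin 2)) 0 • e +
        (!₂[-1, 0] : EuclideanSpace ℝ (Fin 2)) 1 • f = c - e := by simp [sub_eq_add_neg]
    rw [e1]
    exact hQ
  · have e1 : c + (!₂[a, Real.sqrt (1 - a ^ 2)] : EuclideanSpace ℝ (Fin 2)) 0 • e +
        (!₂[a, Real.sqrt (1 - a ^ 2)] : EuclideanSpace ℝ (Fin 2)) 1 • f =
        c + a • e + Real.sqrt (1 - a ^ 2) • f := by simp
    rw [e1]
    exact hR
  · have e1 : c + (!₂[a, -Real.sqrt (1 - a ^ 2)] : EuclideanSpace ℝ (Fin 2)) 0 • e +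
        (!₂[a, -Real.sqrt (1 - a ^ 2)] : EuclideanSpace ℝ (Fin 2)) 1 • f =
        c + a • e - Real.sqrt (1 - a ^ 2) • f := by simp [sub_eq_add_neg]
    rw [e1]
    exact hS

end Pool.Agent.Results.MP_5f8029_co.KiteRamsey
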